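import Mathlib
import Pool.Agent.Work.MP_2fb0b3_al.Hedge.Free

/-- A solvable group `K` has no section isomorphic to `A₄` if and only if every permutation group
on a nonempty finite set that is a quotient of a subgroup of `K` has a 2-colouring with colour
classes of different sizes whose colour-preserving subgroup has order a power of `2`. -/
theorem Pool.Agent.Results.MP_2fb0b3_al.NoA4Section.result (K : Type*) [Group K]
    [Group.IsSolvable K] :
    (¬ ∃ (S : Subgroup K) (f : S →* alternatingGroup (Fin 4)), Function.Surjective f) ↔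
      ∀ (Ω : Type) [Finite Ω] [Nonempty Ω] (G : Subgroup (Equiv.Perm Ω)),
        (∃ (S : Subgroup K) (f : S →* G), Function.Surjective f) →
        ∃ γ : Ω → Fin 2, {ω | γ ω = 0}.ncard ≠ {ω | γ ω = 1}.ncard ∧ ∃ k : ℕ,
          Nat.card {g : Equiv.Perm Ω // g ∈ G ∧ ∀ ω, γ (g ω) = γ ω} = 2 ^ k := by
  constructor
  · rintro h Ω _ _ G ⟨S, f, hf⟩
    have := Group.isSolvable_of_surjective hf
    exact Pool.Agent.Work.MP_2fb0b3_al.Hedge.free G fun h1 => h (h1.lift S f hf).out
  · intro h h1
    obtain ⟨γ, h2, k, hk⟩ := h (Fin 4) _ h1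
    exact Pool.Agent.Work.MP_2fb0b3_al.Hedge.alt_bad γ h2 k hk
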