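import Mathlib
import Pool.Agent.Work.MP_2fb0b3_al.Main

/-- Every solvable permutation group `G` on a finite set `Ω` admits a 3-colouring of `Ω` whose
colour-preserving subgroup has order a power of `2`. -/
theorem Pool.Agent.Work.MP_2fb0b3_al.Parked.ThreeColouring.result
    {Ω : Type*} [Finite Ω] (G : Subgroup (Equiv.Perm Ω)) [Group.IsSolvable G] :
    ∃ γ : Ω → Fin 3, ∃ k : ℕ,
      Nat.card {g : Equiv.Perm Ω // g ∈ G ∧ ∀ ω, γ (g ω) = γ ω} = 2 ^ k :=
  Pool.Agent.Work.MP_2fb0b3_al.main G
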