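import Mathlib
import Pool.Agent.Work.MP_2fb0b3_al.Hedge.Neg

/-- For a set `L` of positive integers the following are equivalent: every finite solvable
permutation group with all orbit lengths in `L` has a 2-colouring whose colour-preserving subgroup
has order a power of `2`; the same for transitive groups of degree in `L`; no element of `L`
other than `4` is divisible by `4`. -/
theorem Pool.Agent.Results.MP_2fb0b3_al.TwoColourDegrees.result (L : Set ℕ) (hL : 0 ∉ L) :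
    List.TFAE
      [∀ (Ω : Type) [Finite Ω] (G : Subgroup (Equiv.Perm Ω)), Group.IsSolvable G →
          (∀ ω : Ω, (MulAction.orbit G ω).ncard ∈ L) →
          ∃ γ : Ω → Fin 2, ∃ k : ℕ,
            Nat.card {g : Equiv.Perm Ω // g ∈ G ∧ ∀ ω, γ (g ω) = γ ω} = 2 ^ k,
        ∀ (Ω : Type) [Finite Ω] (G : Subgroup (Equiv.Perm Ω)), Group.IsSolvable G →
          MulAction.IsPretransitive G Ω → Nat.card Ω ∈ L →
          ∃ γ : Ω → Fin 2, ∃ k : ℕ,
            Nat.card {g : Equiv.Perm Ω // g ∈ G ∧ ∀ ω, γ (g ω) = γ ω} = 2 ^ k,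
        ∀ n ∈ L, 4 ∣ n → n = 4] := by
  tfae_have 1 → 2 := fun h Ω _ G h1 h2 h3 => h Ω G h1 fun ω => by
    rwa [MulAction.orbit_eq_univ, Set.ncard_univ]
  tfae_have 2 → 3 := fun h n hn h4 => by
    by_contra h5
    obtain ⟨Ω, _, G, h6, h7, h8, h9⟩ :=
      Pool.Agent.Work.MP_2fb0b3_al.Hedge.neg (fun e => hL (e ▸ hn)) h4 h5
    obtain ⟨γ, k, hk⟩ := h Ω G h7 h8 (h6 ▸ hn)
    exact h9 γ k hk
  tfae_have 3 → 1 := fun h Ω _ G _ h2 =>
    Pool.Agent.Work.MP_2fb0b3_al.Hedge.pos G fun ω => h _ (h2 ω)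
  tfae_finish
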